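import Mathlib
import Pool.Agent.H48.IsoLie.Defs
import Pool.Agent.H48.IsoLie.Main

set_option autoImplicit false

namespace Pool.Agent.Results.MP_045576_al.UndecidableComputableField

open Pool.H48.IsoLie

/-- The subfield `haltField` of the real numbers is a computable field; for every encoding that
makes it a computable field the isomorphism problem for one-relator Lie algebras is undecidable;
and every recursively enumerable predicate reduces to the isomorphism of a two-generator algebra
with a homogeneous quartic relator with integer coefficients to a fixed one. -/
theorem result :
    (∃ ν : ℕ → haltField, IsComputableField haltField ν) ∧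
    (∀ ν : ℕ → haltField, IsComputableField haltField ν → ¬ IsoDecidable ν) ∧
    ∀ p : ℕ → Prop, REPred p → ∃ g : ℕ → ℕ, Computable g ∧ (∀ n, 0 < g n) ∧
      ∀ n, p n ↔ Isomorphic haltField (quartic haltField (g n : haltField))
        (quartic haltField 1) :=
  main

end Pool.Agent.Results.MP_045576_al.UndecidableComputableField
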